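import Pool.Agent.TH760.Final

/-!
# The Halpern–Läuchli statement at a measurable cardinal needs only a measurable cardinal

The theory ZFC + there is a measurable `κ` such that `HL (d, σ, κ)` holds for all finite `d` and all
`σ < κ` is equiconsistent with ZFC + there is a measurable cardinal.

* If `κ` is measurable then some forcing notion forces `Hypothesis` about the well-ordered set `κ`.
  The forcing language is the one of `Pool.Agent.Helper669.Forcing`: a sentence is the set of the
  conditions which force it; `HypothesisN P K` is the literal translation of the proposition
  `Hypothesis K` into the forcing language (quantifiers over subsets of `K` or `K × K` and over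
  functions from `K` to `K` become quantifiers over names, and ultrafilters and colourings of the
  extension are named by functions on names).
* In ZFC: let `K` be a well-ordered set with `Hypothesis K`. Then the order type of `K` is a
  measurable cardinal `κ`, and `HL d σ κ` holds for all finite `d` and all `σ < κ`.
* In ZFC: if one requires the strong subtrees of arbitrary regular trees to have splitting nodes,
  then the statement fails for `d ≥ 2` trees and two colours at each inaccessible cardinal.

The forcing is the product, with Easton supports, of the forcings adding more than `ℶ_ω(α)` Cohen
subsets of `α`, for `α` in a set `X` of inaccessible cardinals which does not belong to a normal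
ultrafilter on `κ` but contains closure points of each function from `κ` to `κ`; it is multiplied
by the ultraproduct of the tails, so that the ultrafilter generates a measure in the extension.
-/

set_option autoImplicit false

namespace Pool.Agent.Results.MP_c8ac39_lc.MeasurableSuffices

open Cardinal Pool.Agent.TH760

theorem result :
    -- the hypothesis can be forced
    (∀ κ : Cardinal.{0}, IsMeasurable κ →
      ∃ (P : Type) (_ : Preorder P), Nonempty P ∧ ∀ p : P, p ∈ HypothesisN P κ.ord.ToType) ∧
    -- the hypothesis gives a measurable cardinal with the Halpern–Läuchli property
    (∀ (K : Type) [LinearOrder K] [WellFoundedLT K], Hypothesis K →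
      Ordinal.type (· < · : K → K → Prop) = (#K).ord ∧ IsMeasurable #K ∧
        ∀ (d : ℕ) (σ : Ordinal.{0}), σ < (#K).ord → HL d σ #K) ∧
    -- the form in which all the strong subtrees must be regular is refutable
    (∀ κ : Cardinal.{0}, κ.IsInaccessible → ∀ d : ℕ, 2 ≤ d → ¬ LiteralHL d 2 κ) :=
  ⟨fun _ h => forced h, fun _ _ _ h => conclusion h, fun _ h _ hd => not_literalHL h hd⟩

end Pool.Agent.Results.MP_c8ac39_lc.MeasurableSuffices
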